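import Pool.Agent.V5helper51.MT.Stm

/-!
# Project MT, job WC: power sums in separated intervals
-/

set_option autoImplicit false

open Finset

namespace Pool.Agent.V5helper1.MT

open Pool.Agent.V5helper51.MT

/-- A polynomial with prescribed signs on the separated intervals. -/
theorem sgn_poly (s : ℕ) (ε : ℕ → ℝ) (hε : ∀ i, ε i = 1 ∨ ε i = -1) : ∀ m : ℕ,
    ∃ q : Polynomial ℝ, q.natDegree ≤ m ∧ ∃ c : ℝ, 0 < c ∧
      (∀ i : ℕ, i ≤ m → ∀ t : ℝ, 2 * ((s : ℝ) + i + 1) ≤ t → t ≤ 2 * ((s : ℝ) + i) + 3 →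
        c ≤ ε i * q.eval t) ∧
      (∀ t : ℝ, 2 * ((s : ℝ) + m + 1) ≤ t → c ≤ ε m * q.eval t) := by
  intro m
  induction m with
  | zero =>
    have h1 : ε 0 * ε 0 = 1 := by rcases hε 0 with h | h <;> rw [h] <;> norm_num
    refine ⟨Polynomial.C (ε 0), by simp, 1, one_pos, fun i hi t _ _ => ?_, fun t _ => ?_⟩
    · have : i = 0 := by omega
      subst this
      rw [Polynomial.eval_C, h1]
    · rw [Polynomial.eval_C, h1]
  | succ m ih =>
    obtain ⟨q, hq, c, hc, h1, h2⟩ := ih
    have hcases : ε (m + 1) = ε m ∨ ε (m + 1) = - ε m := by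
      rcases hε (m + 1) with h | h <;> rcases hε m with h' | h' <;> rw [h, h'] <;> norm_num
    rcases hcases with h | h
    · refine ⟨q, by omega, c, hc, fun i hi t ht1 ht2 => ?_, fun t ht => ?_⟩
      · rcases Nat.lt_or_ge m i with h3 | h3
        · have : i = m + 1 := by omega
          subst this
          rw [h]
          refine h2 t ?_
          push_cast at ht1
          linarith
        · exact h1 i h3 t ht1 ht2
      · rw [h]
        refine h2 t ?_
        push_cast at ht
        linarith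
    · have hbig : ∀ t : ℝ, 2 * ((s : ℝ) + ((m + 1 : ℕ) : ℝ) + 1) ≤ t →
          c / 2 ≤ ε (m + 1) * ((Polynomial.C (2 * ((s : ℝ) + m) + 7 / 2) - Polynomial.X) * q).eval t := by
        intro t ht
        push_cast at ht
        have h3 := h2 t (by linarith)
        rw [h, Polynomial.eval_mul, Polynomial.eval_sub, Polynomial.eval_C, Polynomial.eval_X]
        have h4 : (1 : ℝ) / 2 ≤ t - (2 * ((s : ℝ) + m) + 7 / 2) := by linarith
        have h5 : - ε m * ((2 * ((s : ℝ) + m) + 7 / 2 - t) * q.eval t) =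
            (t - (2 * ((s : ℝ) + m) + 7 / 2)) * (ε m * q.eval t) := by ring
        rw [h5]
        calc c / 2 = 1 / 2 * c := by ring
          _ ≤ (t - (2 * ((s : ℝ) + m) + 7 / 2)) * (ε m * q.eval t) :=
            mul_le_mul h4 h3 hc.le (by linarith)
      refine ⟨(Polynomial.C (2 * ((s : ℝ) + m) + 7 / 2) - Polynomial.X) * q, ?_, c / 2,
        by positivity, fun i hi t ht1 ht2 => ?_, hbig⟩
      · refine Polynomial.natDegree_mul_le.trans ?_
        have h3 : (Polynomial.C (2 * ((s : ℝ) + m) + 7 / 2) - Polynomial.X).natDegree ≤ 1 := by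
          refine (Polynomial.natDegree_sub_le _ _).trans ?_
          rw [Polynomial.natDegree_C, Polynomial.natDegree_X]
          norm_num
        omega
      · rcases Nat.lt_or_ge m i with h3 | h3
        · have : i = m + 1 := by omega
          subst this
          exact hbig t ht1
        · have h4 := h1 i h3 t ht1 ht2
          have h5 : (i : ℝ) ≤ m := by exact_mod_cast h3
          rw [Polynomial.eval_mul, Polynomial.eval_sub, Polynomial.eval_C, Polynomial.eval_X]
          have h6 : (1 : ℝ) / 2 ≤ 2 * ((s : ℝ) + m) + 7 / 2 - t := by linarith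
          have h7 : ε i * ((2 * ((s : ℝ) + m) + 7 / 2 - t) * q.eval t) =
              (2 * ((s : ℝ) + m) + 7 / 2 - t) * (ε i * q.eval t) := by ring
          rw [h7]
          calc c / 2 = 1 / 2 * c := by ring
            _ ≤ (2 * ((s : ℝ) + m) + 7 / 2 - t) * (ε i * q.eval t) :=
              mul_le_mul h6 h4 hc.le (by linarith)

/-- The estimate for a fixed pattern of signs, unit scale. -/
theorem pattern (r m s : ℕ) (hm : 1 ≤ m) (ε : ℕ → ℝ) (hε : ∀ i, ε i = 1 ∨ ε i = -1) :
    ∃ C : ℝ, 0 < C ∧ ∀ x y : Fin m → ℝ,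
      (∀ i : Fin m, 2 * ((s : ℝ) + (i : ℕ) + 1) ≤ x i ∧ x i ≤ 2 * ((s : ℝ) + (i : ℕ)) + 3) →
      (∀ i : Fin m, 2 * ((s : ℝ) + (i : ℕ) + 1) ≤ y i ∧ y i ≤ 2 * ((s : ℝ) + (i : ℕ)) + 3) →
      (∀ i : Fin m, 0 ≤ ε i * (x i - y i)) →
      ∀ i, |x i - y i| ≤ C * ∑ j ∈ Icc (r + 1) (r + m), |∑ l, (x l ^ j - y l ^ j)| := by
  obtain ⟨q, hq, c, hc, h1, -⟩ := sgn_poly s ε hε (m - 1)
  have hq' : q.natDegree < m := by omega
  obtain ⟨B, hB⟩ : ∃ B, B = ∑ i ∈ range m, |q.coeff i / ((i : ℝ) + r + 1)| := ⟨_, rfl⟩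
  have hB0 : 0 ≤ B := by rw [hB]; exact sum_nonneg fun _ _ => abs_nonneg _
  refine ⟨(B + 1) / c, by positivity, fun x y hx hy hs i => ?_⟩
  set Q : ℝ → ℝ := fun t => ∑ i ∈ range m, q.coeff i / ((i : ℝ) + r + 1) * t ^ (i + r + 1) with hQ
  have hd : ∀ t, HasDerivAt Q (t ^ r * q.eval t) t := by
    intro t
    have e : t ^ r * q.eval t = ∑ i ∈ range m, q.coeff i / ((i : ℝ) + r + 1) *
        (((i + r + 1 : ℕ) : ℝ) * t ^ (i + r + 1 - 1)) := by
      rw [Polynomial.eval_eq_sum_range' hq', mul_sum]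
      refine sum_congr rfl fun i _ => ?_
      have h0 : (i : ℝ) + r + 1 ≠ 0 := by positivity
      rw [Nat.add_sub_cancel, pow_add]
      push_cast
      field_simp
    rw [e]
    exact HasDerivAt.fun_sum fun i _ => (hasDerivAt_pow (i + r + 1) t).const_mul _
  have hcont : Continuous Q := continuous_iff_continuousAt.2 fun t => (hd t).continuousAt
  have hlow : ∀ l : Fin m, c * |x l - y l| ≤ Q (x l) - Q (y l) := by
    intro l
    have hl : (l : ℕ) ≤ m - 1 := by have := l.isLt; omega
    have hder : ∀ ξ : ℝ, 2 * ((s : ℝ) + (l : ℕ) + 1) ≤ ξ → ξ ≤ 2 * ((s : ℝ) + (l : ℕ)) + 3 →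
        c ≤ ε l * (ξ ^ r * q.eval ξ) := by
      intro ξ h2 h3
      have h4 := h1 l hl ξ h2 h3
      have h5 : (1 : ℝ) ≤ ξ := by
        have : (0 : ℝ) ≤ (s : ℝ) + (l : ℕ) := by positivity
        linarith
      have h6 : (1 : ℝ) ≤ ξ ^ r := one_le_pow₀ h5
      calc c = 1 * c := by ring
        _ ≤ ξ ^ r * (ε l * q.eval ξ) := mul_le_mul h6 h4 hc.le (by linarith)
        _ = ε l * (ξ ^ r * q.eval ξ) := by ring
    rcases lt_trichotomy (x l) (y l) with hlt | heq | hgt
    · obtain ⟨ξ, hξ, he⟩ := exists_hasDerivAt_eq_slope Q (fun t => t ^ r * q.eval t) hlt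
        hcont.continuousOn (fun t _ => hd t)
      have h2 := hder ξ (by have := (hx l).1; linarith [hξ.1]) (by have := (hy l).2; linarith [hξ.2])
      have h3 : ε l = -1 := by
        rcases hε l with h | h
        · have := hs l
          rw [h] at this
          linarith
        · exact h
      rw [h3] at h2
      have h4 : 0 < y l - x l := by linarith
      rw [eq_div_iff h4.ne'] at he
      rw [abs_of_neg (by linarith)]
      nlinarith [mul_le_mul_of_nonneg_right h2 h4.le]
    · rw [heq]; simp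
    · obtain ⟨ξ, hξ, he⟩ := exists_hasDerivAt_eq_slope Q (fun t => t ^ r * q.eval t) hgt
        hcont.continuousOn (fun t _ => hd t)
      have h2 := hder ξ (by have := (hy l).1; linarith [hξ.1]) (by have := (hx l).2; linarith [hξ.2])
      have h3 : ε l = 1 := by
        rcases hε l with h | h
        · exact h
        · have := hs l
          rw [h] at this
          linarith
      rw [h3] at h2
      have h4 : 0 < x l - y l := by linarith
      rw [eq_div_iff h4.ne'] at he
      rw [abs_of_pos (by linarith)]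
      nlinarith [mul_le_mul_of_nonneg_right h2 h4.le]
  have h3 : c * |x i - y i| ≤ ∑ l, (Q (x l) - Q (y l)) :=
    (hlow i).trans (single_le_sum (f := fun l => Q (x l) - Q (y l))
      (fun l _ => (by positivity : (0 : ℝ) ≤ c * |x l - y l|).trans (hlow l)) (mem_univ i))
  set T := ∑ j ∈ Icc (r + 1) (r + m), |∑ l, (x l ^ j - y l ^ j)| with hT
  have hT0 : 0 ≤ T := sum_nonneg fun _ _ => abs_nonneg _
  have h4 : ∑ l, (Q (x l) - Q (y l)) ≤ B * T := by
    have e : ∑ l, (Q (x l) - Q (y l)) = ∑ i ∈ range m, q.coeff i / ((i : ℝ) + r + 1) *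
        ∑ l, (x l ^ (i + r + 1) - y l ^ (i + r + 1)) := by
      simp only [hQ, ← sum_sub_distrib, mul_sum]
      rw [sum_comm]
      refine sum_congr rfl fun i _ => sum_congr rfl fun l _ => ?_
      ring
    rw [e, hB, sum_mul]
    refine sum_le_sum fun i hi => ?_
    refine (le_abs_self _).trans ?_
    rw [abs_mul]
    refine mul_le_mul_of_nonneg_left ?_ (abs_nonneg _)
    refine single_le_sum (f := fun j => |∑ l, (x l ^ j - y l ^ j)|) (fun _ _ => abs_nonneg _) ?_
    rw [mem_Icc]
    have := mem_range.1 hi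
    omega
  rw [div_mul_eq_mul_div, le_div_iff₀ hc]
  nlinarith

/-- WC -/
theorem t_WC : S_WC := by
  classical
  intro r m s hm
  -- constants for all the patterns
  let E : (Fin m → Bool) → ℕ → ℝ := fun b i =>
    if h : i < m then (if b ⟨i, h⟩ then 1 else -1) else 1
  have hE : ∀ b i, E b i = 1 ∨ E b i = -1 := by
    intro b i
    simp only [E]
    split_ifs <;> simp
  choose C hC0 hC using fun b => pattern r m s hm (E b) (hE b)
  have hCsum : 0 < ∑ b, C b := sum_pos (fun b _ => hC0 b) ⟨fun _ => true, mem_univ _⟩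
  refine ⟨∑ b, C b, hCsum, fun P hP x y hx hy i => ?_⟩
  let x' : Fin m → ℝ := fun i => x i / P
  let y' : Fin m → ℝ := fun i => y i / P
  have hx' : ∀ i : Fin m, 2 * ((s : ℝ) + (i : ℕ) + 1) ≤ x' i ∧ x' i ≤ 2 * ((s : ℝ) + (i : ℕ)) + 3 :=
    fun i => ⟨(le_div_iff₀ hP).2 (hx i).1, (div_le_iff₀ hP).2 (hx i).2⟩
  have hy' : ∀ i : Fin m, 2 * ((s : ℝ) + (i : ℕ) + 1) ≤ y' i ∧ y' i ≤ 2 * ((s : ℝ) + (i : ℕ)) + 3 :=
    fun i => ⟨(le_div_iff₀ hP).2 (hy i).1, (div_le_iff₀ hP).2 (hy i).2⟩
  let b : Fin m → Bool := fun i => decide (y' i ≤ x' i)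
  have hs : ∀ i : Fin m, 0 ≤ E b i * (x' i - y' i) := by
    intro i
    have e1 : E b i = if b i then 1 else -1 := by
      simp only [E]
      rw [dif_pos i.isLt]
    rw [e1]
    by_cases h : y' i ≤ x' i
    · have : b i = true := decide_eq_true h
      rw [this]
      simp only [if_true, one_mul]
      linarith
    · have : b i = false := decide_eq_false h
      rw [this]
      simp only [Bool.false_eq_true, if_false]
      push Not at h
      linarith
  have h1 := hC b x' y' hx' hy' hs i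
  have h2 : C b ≤ ∑ b, C b := single_le_sum (fun b _ => (hC0 b).le) (mem_univ b)
  have e1 : |x' i - y' i| = |x i - y i| / P := by
    simp only [x', y']
    rw [← sub_div, abs_div, abs_of_pos hP]
  have e2 : ∑ j ∈ Icc (r + 1) (r + m), |∑ l, (x' l ^ j - y' l ^ j)| =
      (∑ j ∈ Icc (r + 1) (r + m), |∑ l, (x l ^ j - y l ^ j)| / P ^ (j - 1)) / P := by
    rw [sum_div]
    refine sum_congr rfl fun j hj => ?_
    have hj1 : 1 ≤ j := by have := (mem_Icc.1 hj).1; omega
    have e3 : ∑ l, (x' l ^ j - y' l ^ j) = (∑ l, (x l ^ j - y l ^ j)) / P ^ j := by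
      rw [sum_div]
      refine sum_congr rfl fun l _ => ?_
      simp only [x', y', div_pow]
      rw [← sub_div]
    rw [e3, abs_div, abs_of_pos (pow_pos hP j), div_div, ← pow_succ, Nat.sub_add_cancel hj1]
  rw [e1, e2, ← mul_div_assoc, div_le_div_iff_of_pos_right hP] at h1
  refine h1.trans (mul_le_mul_of_nonneg_right h2 ?_)
  exact sum_nonneg fun j _ => by positivity

end Pool.Agent.V5helper1.MT
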